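import Pool.Agent.T2h19.SZ.P7

/-!
# The Szpiro ratio of almost all semistable curves with torsion `ℤ/8`, `ℤ/10`, `ℤ/12`, `ℤ/2 × ℤ/8`

The law `|Δ| = N ^ (12 k / q + o(1))` for almost all semistable members of a one-parameter family,
ordered by the conductor `N`, when some of the `q` cusps are irrational: at least three cusps are
rational and all others are defined over quadratic fields. The height is at most an arbitrary fixed
power of the bound for the conductor. In particular this holds for the elliptic curves over `ℚ` with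
a subgroup `ℤ/8`, `ℤ/10`, `ℤ/12` or `ℤ/2 × ℤ/8` of rational points, where `q = 6, 8, 10, 10` and
`12 k / q = 4, 9/2, 24/5, 24/5`. The starting results `SzpiroRatioByTorsion` (`ℤ/6`, `ℤ/2 × ℤ/4`,
`ℤ/2 × ℤ/6`) and `MP_cafdd5_nt.FamiliesWithRationalCusps` treat the families all of whose cusps are
rational.

Proof. The discriminant is a product of powers of values of linear and quadratic forms `h_i`, `g_j`
at a primitive point `(x, y)`, up to bounded factors, and the radicals of these values are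
essentially coprime. There are at most `X ^ (2/q - η)` points at which the radical of some `g_j` or
of some `h_i h_j` is at most `X ^ (2/q - 2η)` (starting library, `Pool.Agent.TH498.KB.small`). At
all others the product of the radicals of the `L` linear forms is at most
`X ^ (L/q + O(η))`, and then the theorem on almost all points of the projective line
(`MP_4d5ce1_nt.AlmostAllPoints`) for the `L ≥ 3` rational cusps shows that the height of almost all
of these points is at most `X ^ (1/q + δ)`. The lower bounds for `|g_j|` and `|h_i h_j|`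
then give the lower bound for `|Δ|`. For the number of the curves from below we use the points with
`M ∣ x` for a suitable `M`, for which `c₄ = 1` modulo the primes of `M` up to a power of `y`.
-/

set_option autoImplicit false

namespace Pool.Agent.Results.MP_d8bd92_nt.SzpiroRatioIrrationalCusps

open Polynomial

/-- the product of the primes dividing `Δ(W)` (the conductor if `gcd(c₄, Δ) = 1`) -/
def conductor (W : WeierstrassCurve ℤ) : ℕ := ∏ p ∈ W.Δ.natAbs.primeFactors, p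

/-- `W` is the minimal model of a semistable elliptic curve over `ℚ` -/
def Semistable (W : WeierstrassCurve ℤ) : Prop := W.Δ ≠ 0 ∧ IsCoprime W.c₄ W.Δ

/-- the naive height `max (|c₄|³, c₆²)`; one has `864 |Δ| ≤ height` -/
noncomputable def height (W : WeierstrassCurve ℤ) : ℝ :=
  max (|(W.c₄ : ℝ)| ^ 3) ((W.c₆ : ℝ) ^ 2)

/-- the invariants `(c₄, c₆)` of the semistable elliptic curves over `ℚ` with the property `P`, with
conductor at most `X` and `|Δ| ≤ X ^ a` -/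
def Curves (P : WeierstrassCurve ℤ → Prop) (a X : ℝ) : Set (ℤ × ℤ) :=
  {q | ∃ W : WeierstrassCurve ℤ, Semistable W ∧ P W ∧ (conductor W : ℝ) ≤ X ∧
    |(W.Δ : ℝ)| ≤ X ^ a ∧ (W.c₄, W.c₆) = q}

/-- those among them for which `N ^ (m - δ) ≤ |Δ|` and `max (|c₄|³, c₆²) ≤ N ^ (m + δ)` do not both
hold, `N` the conductor -/
def Exceptions (P : WeierstrassCurve ℤ → Prop) (m δ a X : ℝ) : Set (ℤ × ℤ) :=
  {q | ∃ W : WeierstrassCurve ℤ, Semistable W ∧ P W ∧ (conductor W : ℝ) ≤ X ∧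
    |(W.Δ : ℝ)| ≤ X ^ a ∧ (W.c₄, W.c₆) = q ∧
    ¬ ((conductor W : ℝ) ^ (m - δ) ≤ |(W.Δ : ℝ)| ∧ height W ≤ (conductor W : ℝ) ^ (m + δ))}

/-- For every `a > 0` and all `ε, δ > 0`: at most `C X ^ (2/q + ε)` of the curves have `N ≤ X` and
`|Δ| ≤ X ^ a`, and all but at most `C X ^ (2/q - η)` of them satisfy
`N ^ (m - δ) ≤ |Δ|` and `max (|c₄|³, c₆²) ≤ N ^ (m + δ)`. -/
def Law (P : WeierstrassCurve ℤ → Prop) (q m : ℝ) : Prop :=
  ∀ a : ℝ, 0 < a →
    (∀ ε : ℝ, 0 < ε → ∃ C : ℝ, 0 < C ∧ ∀ X : ℝ, 1 ≤ X → (Curves P a X).Finite ∧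
      ((Curves P a X).ncard : ℝ) ≤ C * X ^ (2 / q + ε)) ∧
    ∀ δ : ℝ, 0 < δ → ∃ η : ℝ, 0 < η ∧ ∃ C : ℝ, 0 < C ∧ ∀ X : ℝ, 1 ≤ X →
      ((Exceptions P m δ a X).ncard : ℝ) ≤ C * X ^ (2 / q - η)

/-- For every `a ≥ m` at least `c X ^ (2/q)` of the curves have `N ≤ X` and `|Δ| ≤ X ^ a`, if `X` is
large. -/
def Many (P : WeierstrassCurve ℤ → Prop) (q m : ℝ) : Prop :=
  ∀ a : ℝ, m ≤ a → ∃ c : ℝ, 0 < c ∧ ∃ X₀ : ℝ, ∀ X : ℝ, X₀ ≤ X →
    c * X ^ (2 / q) ≤ ((Curves P a X).ncard : ℝ)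

/-- a family `y² = x³ - A(t) x - B(t)` with multiplicative bad fibres only: `A` and `B`, viewed as
binary forms of degrees `4k` and `6k`, have no common zero on the projective line, and the form
`4A³ - 27B²` of degree `12k` is a constant times a product of powers of `w` quadratic forms `g_j` and
of `L ≥ 3` linear forms `h_i`, the product of all the `g_j` and `h_i` being without multiple
factors (a constant `h_i` is the linear form that vanishes at infinity) -/
structure Family (A B : ℤ[X]) (k w L : ℕ) : Prop where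
  one_le : 1 ≤ k
  degA : A.natDegree ≤ 4 * k
  degB : B.natDegree ≤ 6 * k
  deg : A.natDegree = 4 * k ∨ B.natDegree = 6 * k
  coprime : IsCoprime (A.map (Int.castRingHom ℚ)) (B.map (Int.castRingHom ℚ))
  three : 3 ≤ L
  split : ∃ (g : Fin w → ℤ[X]) (h : Fin L → ℤ[X]) (f : Fin w → ℕ) (e : Fin L → ℕ) (c : ℤ),
    (∀ j, (g j).natDegree ≤ 2) ∧ (∀ i, (h i).natDegree ≤ 1) ∧
    Squarefree (((∏ j, g j) * ∏ i, h i).map (Int.castRingHom ℚ)) ∧
    2 * w + L ≤ ((∏ j, g j) * ∏ i, h i).natDegree + 1 ∧ c ≠ 0 ∧ (∀ j, 1 ≤ f j) ∧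
    (∀ i, 1 ≤ e i) ∧ 4 * A ^ 3 - 27 * B ^ 2 = C c * ((∏ j, g j ^ f j) * ∏ i, h i ^ e i) ∧
    2 * ∑ j, f j + ∑ i, e i = 12 * k

/-- `W`, that is `y² = x³ - 27 c₄ x - 54 c₆`, is isomorphic over `ℚ` to `y² = x³ - A(t) x - B(t)` for
some `t ∈ ℚ` -/
def Member (A B : ℤ[X]) (W : WeierstrassCurve ℤ) : Prop :=
  ∃ t u : ℚ, u ≠ 0 ∧ 27 * (W.c₄ : ℚ) = u ^ 4 * (A.map (Int.castRingHom ℚ)).eval t ∧
    54 * (W.c₆ : ℚ) = u ^ 6 * (B.map (Int.castRingHom ℚ)).eval t

/-- the torsion groups in Mazur's list whose modular curve has genus 0, at least three rational cusps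
and irrational cusps, all of them quadratic -/
inductive Torsion
  | Z8 | Z10 | Z12 | Z2Z8

/-- Kubert's families `y² + a₁(t) x y + a₃(t) y = x³ + a₂(t) x²` (Tate normal forms, with the
denominators cleared) -/
def curve : Torsion → ℚ → WeierstrassCurve ℚ
  | .Z8, t => ⟨t - (2 * t - 1) * (t - 1), -((2 * t - 1) * (t - 1) * t ^ 2),
      -((2 * t - 1) * (t - 1) * t ^ 3), 0, 0⟩
  | .Z10, t => ⟨-t ^ 2 + 3 * t - 1 - t * (2 * t - 1) * (t - 1), -(t ^ 3 * (2 * t - 1) * (t - 1)),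
      -(t ^ 3 * (2 * t - 1) * (t - 1) * (-t ^ 2 + 3 * t - 1)), 0, 0⟩
  | .Z12, t => ⟨(t - 1) ^ 3 + t * (2 * t - 1) * (3 * t ^ 2 - 3 * t + 1),
      -(t * (2 * t - 1) * (3 * t ^ 2 - 3 * t + 1) * (2 * t ^ 2 - 2 * t + 1) * (t - 1) ^ 2),
      -(t * (2 * t - 1) * (3 * t ^ 2 - 3 * t + 1) * (2 * t ^ 2 - 2 * t + 1) * (t - 1) ^ 5), 0, 0⟩
  | .Z2Z8, t => ⟨t * (2 * t + 1) * (2 * t ^ 2 - 1) - (t + 1) * (2 * t ^ 2 + 2 * t + 1),
      -((t + 1) * (2 * t ^ 2 + 2 * t + 1) * (t * (2 * t + 1)) ^ 2),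
      -((t + 1) * (2 * t ^ 2 + 2 * t + 1) * (t * (2 * t + 1)) ^ 3 * (2 * t ^ 2 - 1)), 0, 0⟩

/-- `W` is isomorphic over `ℚ` to a member of Kubert's family for `T` -/
def KubertMember (T : Torsion) (W : WeierstrassCurve ℤ) : Prop :=
  ∃ (t : ℚ) (C : WeierstrassCurve.VariableChange ℚ), C • curve T t = W.map (Int.castRingHom ℚ)

/-- the number of the cusps -/
def cusps : Torsion → ℝ
  | .Z8 => 6 | .Z10 => 8 | .Z12 => 10 | .Z2Z8 => 10

/-- the Szpiro ratio of almost all curves -/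
noncomputable def ratio : Torsion → ℝ
  | .Z8 => 4 | .Z10 => 9 / 2 | .Z12 => 24 / 5 | .Z2Z8 => 24 / 5

open Pool.Agent.T2h19.SZ in
theorem law_of {w L : ℕ} {A B : ℤ[X]} {k : ℕ} {g : Fin w → ℤ[X]} {h : Fin L → ℤ[X]}
    {e : Fin w ⊕ Fin L → ℕ} {c : ℤ} (hL : 3 ≤ L)
    (hF : FamE A B k (Sum.elim g h) (nn w L) e c) (P : WeierstrassCurve ℤ → Prop)
    (hP : ∀ W, P W → Pool.Agent.TH498.KB.Mem A B (27 * W.c₄) (54 * W.c₆)) (q m : ℝ)
    (hq : q = 2 * (w : ℝ) + L) (hm : m = 12 * k / q) : Law P q m := by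
  intro a ha
  subst hq
  refine ⟨fun ε hε => ?_, fun δ hδ => ?_⟩
  · obtain ⟨C, hC, h1⟩ := fam_up hL hF a ε ha hε
    refine ⟨C, hC, fun X hX => h1 X hX _ ?_⟩
    rintro q ⟨W, ⟨g1, g2⟩, g3, g4, g5, g6⟩
    exact ⟨W, ⟨g1, g2, hP W g3, g4, g5⟩, g6.symm⟩
  · obtain ⟨η, hη, C, hC, h1⟩ := fam_exc hL hF a δ m hm ha hδ
    refine ⟨η, hη, C, hC, fun X hX => (h1 X hX _ ?_).2⟩
    rintro q ⟨W, ⟨g1, g2⟩, g3, g4, g5, g6, g7⟩
    exact ⟨W, ⟨g1, g2, hP W g3, g4, g5⟩, g6.symm, g7⟩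

open Pool.Agent.T2h19.SZ Pool.Agent.TH498.KB in
theorem kub_of {w L : ℕ} {a1 a2 a3 : ℤ[X]} {k : ℕ} {g : Fin w → ℤ[X]} {h : Fin L → ℤ[X]}
    {e : Fin w ⊕ Fin L → ℕ} {c : ℤ} (hL : 3 ≤ L)
    (hF : FamE (27 * c4p a1 a2 a3) (54 * c6p a1 a2 a3) k (Sum.elim g h) (nn w L) e c)
    (hd : a1.natDegree ≤ k ∧ a2.natDegree ≤ 2 * k ∧ a3.natDegree ≤ 3 * k ∧
      (c4p a1 a2 a3).coeff 0 = 1) (T : Torsion) (hT : ∀ t, curve T t = crv a1 a2 a3 t)
    (hq : cusps T = 2 * (w : ℝ) + L) (hm : ratio T = 12 * k / cusps T) :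
    Law (KubertMember T) (cusps T) (ratio T) ∧ Many (KubertMember T) (cusps T) (ratio T) := by
  have hlaw : Law (KubertMember T) (cusps T) (ratio T) := by
    refine law_of hL hF _ ?_ _ _ hq hm
    rintro W ⟨t, D, hD⟩
    rw [hT] at hD
    exact mem_inv a1 a2 a3 t D W hD
  refine ⟨hlaw, fun a ha => ?_⟩
  have hs : ((∑ i, nn w L i : ℕ) : ℝ) = cusps T := by
    rw [nn_sum, hq]
    push_cast
    ring
  have hq0 : 0 < cusps T := by
    have : (3 : ℝ) ≤ L := by exact_mod_cast hL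
    rw [hq]
    positivity
  have hk : (1 : ℝ) ≤ k := by exact_mod_cast hF.hk
  have hr0 : 0 < ratio T := by rw [hm]; positivity
  obtain ⟨c', hc', X0, hX0, h1⟩ := fam_low hF hd.1 hd.2.1 hd.2.2.1 hd.2.2.2
    (by rw [nn_sum]; omega) a (by rw [hs, ← hm]; exact ha)
  refine ⟨c', hc', X0, fun X hX => ?_⟩
  obtain ⟨C, hC, h2⟩ := (hlaw a (by linarith)).1 1 one_pos
  rw [hs] at h1
  refine h1 X hX _ (h2 X (hX0.trans hX)).1 fun W g1 g2 ⟨t, D, hD⟩ g4 g5 => ?_
  exact ⟨W, ⟨g1, g2⟩, ⟨t, D, by rw [hT]; exact hD⟩, g4, g5, rfl⟩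

open Pool.Agent.T2h19.SZ in
/-- **The Szpiro ratio of almost all semistable curves in families with irrational cusps.**
(1) For every family with `L ≥ 3` rational and `w` pairs of further cusps (`q = 2w + L`): for every
`a` at most `C X ^ (2/q + ε)` semistable members have conductor `N ≤ X` and `|Δ| ≤ X ^ a`, and for
every `δ > 0` all but `C X ^ (2/q - η)` of them satisfy `N ^ (12k/q - δ) ≤ |Δ|` and
`max (|c₄|³, c₆²) ≤ N ^ (12k/q + δ)`.
(2) This holds for Kubert's families for `ℤ/8`, `ℤ/10`, `ℤ/12`, `ℤ/2 × ℤ/8` with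
`q = 6, 8, 10, 10` and `12k/q = 4, 9/2, 24/5, 24/5`, and there, if `a ≥ 12k/q`, at least
`c X ^ (2/q)` semistable curves have `N ≤ X` and `|Δ| ≤ X ^ a`. -/
theorem result :
    (∀ (A B : ℤ[X]) (k w L : ℕ), Family A B k w L →
      Law (Member A B) (2 * w + L) (12 * k / (2 * w + L))) ∧
    (∀ T : Torsion, Law (KubertMember T) (cusps T) (ratio T) ∧
      Many (KubertMember T) (cusps T) (ratio T)) := by
  refine ⟨?_, ?_⟩
  · intro A B k w L hF
    obtain ⟨g, h, f, e, c, h1, h2, h3, h4, h5, h6, h7, h8, h9⟩ := hF.split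
    have hle : ((∏ j, g j) * ∏ i, h i).natDegree ≤ 2 * w + L := by
      refine natDegree_mul_le.trans (add_le_add ?_ ?_)
      · refine (natDegree_prod_le _ _).trans ((Finset.sum_le_sum fun j _ => h1 j).trans ?_)
        simp
        omega
      · refine (natDegree_prod_le _ _).trans ((Finset.sum_le_sum fun j _ => h2 j).trans ?_)
        simp
    have hE : FamE A B k (Sum.elim g h) (nn w L) (Sum.elim f e) c := by
      refine ⟨hF.one_le, hF.degA, hF.degB, hF.deg, hF.coprime, ?_, ?_, h5, ?_, ?_, ?_⟩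
      · rintro (j | i)
        · exact h1 j
        · exact h2 i
      · rw [elim_prod, nn_sum]
        exact ⟨h3, hle, h4⟩
      · rintro (j | i)
        · exact h6 j
        · exact h7 i
      · rw [h8, Fintype.prod_sum_type]
        rfl
      · rw [Fintype.sum_sum_type]
        simp only [nn, Sum.elim_inl, Sum.elim_inr, one_mul, ← Finset.mul_sum]
        exact h9
    refine law_of hF.three hE _ ?_ _ _ rfl rfl
    rintro W ⟨t, u, hu, ha, hb⟩
    exact ⟨t, u, hu, by push_cast; exact ha, by push_cast; exact hb⟩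
  · intro T
    cases T
    · exact kub_of (by norm_num) famE_z8 deg_z8 _ (fun t => by
        simp [curve, Pool.Agent.TH498.KB.crv, Pool.Agent.TH498.KB.a1_z8,
          Pool.Agent.TH498.KB.a2_z8, Pool.Agent.TH498.KB.a3_z8])
        (by norm_num [cusps]) (by norm_num [cusps, ratio])
    · exact kub_of (by norm_num) famE_z10 deg_z10 _ (fun t => by
        simp [curve, Pool.Agent.TH498.KB.crv, Pool.Agent.TH498.KB.a1_z10,
          Pool.Agent.TH498.KB.a2_z10, Pool.Agent.TH498.KB.a3_z10])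
        (by norm_num [cusps]) (by norm_num [cusps, ratio])
    · exact kub_of (by norm_num) famE_z12 deg_z12 _ (fun t => by
        simp [curve, Pool.Agent.TH498.KB.crv, Pool.Agent.TH498.KB.a1_z12,
          Pool.Agent.TH498.KB.a2_z12, Pool.Agent.TH498.KB.a3_z12])
        (by norm_num [cusps]) (by norm_num [cusps, ratio])
    · exact kub_of (by norm_num) famE_z2x8 deg_z2x8 _ (fun t => by
        simp [curve, Pool.Agent.TH498.KB.crv, Pool.Agent.TH498.KB.a1_z2x8,
          Pool.Agent.TH498.KB.a2_z2x8, Pool.Agent.TH498.KB.a3_z2x8])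
        (by norm_num [cusps]) (by norm_num [cusps, ratio])

end Pool.Agent.Results.MP_d8bd92_nt.SzpiroRatioIrrationalCusps
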