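import Mathlib
import Pool.Agent.T2h91.TI.Law

/-!
# Semistable elliptic curves with a rational isogeny of degree three, ordered by conductor

For every `κ` with `2 < κ < 8 / 3` the number of semistable elliptic curves over `ℚ` with a rational
isogeny of degree three, conductor `N ≤ X` and naive height at most `X ^ κ` is of the exact order
`X ^ (2 / 3)`, and for almost all of them the discriminant and the height are of the size `N ^ 2`:
at most `C (K ^ (-θ) + X ^ (-η)) X ^ (2 / 3)` of them have `|Δ| < N ^ 2 / K` or height larger than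
`K N ^ 2`, uniformly in `K ≥ 1`.
-/

set_option autoImplicit false

namespace Pool.Agent.Results.MP_d8bd92_nt.ThreeIsogenyConductorLaw

/-- the product of the distinct primes dividing `Δ(W)` (the conductor if `gcd(c₄, Δ) = 1`) -/
def conductor (W : WeierstrassCurve ℤ) : ℕ := ∏ p ∈ W.Δ.natAbs.primeFactors, p

/-- there is a rational isogeny of degree 3 (a rational subgroup of order 3): the 3-division
polynomial `3x⁴ + b₂x³ + 3b₄x² + 3b₆x + b₈` has a rational root -/
def HasThreeIsogeny (W : WeierstrassCurve ℤ) : Prop :=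
  ∃ r : ℚ, 3 * r ^ 4 + W.b₂ * r ^ 3 + 3 * W.b₄ * r ^ 2 + 3 * W.b₆ * r + W.b₈ = 0

/-- the naive height `max (|c₄|³, c₆²)` -/
def height (W : WeierstrassCurve ℤ) : ℤ := max (|W.c₄| ^ 3) (W.c₆ ^ 2)

/-- the invariants `(c₄, c₆)` of the integral Weierstrass curves with `Δ ≠ 0` and `gcd(c₄, Δ) = 1`
(the minimal models of the semistable elliptic curves over `ℚ`) having a rational isogeny of degree
three, conductor at most `X`, naive height at most `X ^ κ` and the property `P` -/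
def Curves (κ X : ℝ) (P : WeierstrassCurve ℤ → Prop) : Set (ℤ × ℤ) :=
  {q | ∃ W : WeierstrassCurve ℤ, W.Δ ≠ 0 ∧ IsCoprime W.c₄ W.Δ ∧ HasThreeIsogeny W ∧
    (conductor W : ℝ) ≤ X ∧ (height W : ℝ) ≤ X ^ κ ∧ P W ∧ q = (W.c₄, W.c₆)}

/-- `|Δ| < N ^ 2 / K`, or the height is larger than `K N ^ 2`. As `1728 |Δ|` is at most twice the
height, every curve has this property for `K = 1`. -/
def Deviates (K : ℝ) (W : WeierstrassCurve ℤ) : Prop :=
  |(W.Δ : ℝ)| < (conductor W : ℝ) ^ 2 / K ∨ K * (conductor W : ℝ) ^ 2 < (height W : ℝ)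

/-- **Theorem.** Let `2 < κ < 8 / 3` and `0 < θ < 1 / 9`. There are `η > 0`, `C` and `X₀` such that
for all real `X ≥ X₀` there are at least `X ^ (2 / 3) / 2000` semistable elliptic curves over `ℚ`
with a rational isogeny of degree three, conductor `N ≤ X` and naive height at most `X ^ κ`, and for
every `K ≥ 1` at most `C (K ^ (-θ) + X ^ (-η)) X ^ (2 / 3)` of them have `|Δ| < N ^ 2 / K` or height
larger than `K N ^ 2`. For `K = 1` these are all the curves. -/
theorem result (κ θ : ℝ) (h1 : 2 < κ) (h2 : κ < 8 / 3) (hθ0 : 0 < θ) (hθ : θ < 1 / 9) :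
    ∃ η C X₀ : ℝ, 0 < η ∧ 0 < C ∧ ∀ X : ℝ, X₀ ≤ X →
      (Curves κ X (fun _ => True)).Finite ∧
      1 / 2000 * X ^ (2 / 3 : ℝ) ≤ ((Curves κ X (fun _ => True)).ncard : ℝ) ∧
      ∀ K : ℝ, 1 ≤ K → ((Curves κ X (Deviates K)).ncard : ℝ) ≤
        C * (K ^ (-θ) + X ^ (-η)) * X ^ (2 / 3 : ℝ) := by
  obtain ⟨η, C, hη, hC, h⟩ := Pool.Agent.T2h91.TI.law κ θ (by linarith) h2 hθ0 hθ
  obtain ⟨C', hC', hu⟩ := Pool.Agent.T2h91.TI.upper κ h2
  obtain ⟨X₁, hl⟩ := Pool.Agent.T2h91.TI.lower κ h1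
  refine ⟨η, C, max X₁ 1, hη, hC, fun X hX => ?_⟩
  have hXb : X₁ ≤ X := (le_max_left _ _).trans hX
  have hXc : 1 ≤ X := (le_max_right _ _).trans hX
  exact ⟨(hu X hXc).1, hl X hXb, fun K hK => (h X K hXc hK).2⟩

end Pool.Agent.Results.MP_d8bd92_nt.ThreeIsogenyConductorLaw
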