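import Mathlib
import Pool.Agent.T2h82.As.Law

/-!
# Semistable elliptic curves with a rational point of order two, ordered by conductor

The number of semistable elliptic curves over `ℚ` with a rational point of order two, conductor at
most `X` and naive height at most `X ^ κ`, where `3 / 2 < κ < 3`, is asymptotic to
`constant * X ^ (3 / 4)`, where the constant is explicit and does not depend on `κ`, and the
quotient `|Δ| / N ^ (3 / 2)` has a limiting distribution.
-/

set_option autoImplicit false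

namespace Pool.Agent.Results.MP_d8bd92_nt.TwoTorsionConductorLaw

open Filter Topology MeasureTheory

/-- the product of the distinct primes dividing `Δ(W)` (the conductor if `gcd(c₄, Δ) = 1`) -/
def conductor (W : WeierstrassCurve ℤ) : ℕ := ∏ p ∈ W.Δ.natAbs.primeFactors, p

/-- there is a rational point of order two: the 2-division polynomial `4x³ + b₂x² + 2b₄x + b₆` has
a rational root -/
def HasTwoTorsionPoint (W : WeierstrassCurve ℤ) : Prop :=
  ∃ r : ℚ, 4 * r ^ 3 + W.b₂ * r ^ 2 + 2 * W.b₄ * r + W.b₆ = 0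

/-- the naive height `max (|c₄|³, c₆²)` -/
def height (W : WeierstrassCurve ℤ) : ℤ := max (|W.c₄| ^ 3) (W.c₆ ^ 2)

/-- the invariants `(c₄, c₆)` of the integral Weierstrass curves with `Δ ≠ 0` and `gcd(c₄, Δ) = 1`
(the minimal models of the semistable elliptic curves over `ℚ`) having a rational point of order
two, conductor at most `X`, naive height at most `X ^ κ` and the property `P` -/
def Curves (κ X : ℝ) (P : WeierstrassCurve ℤ → Prop) : Set (ℤ × ℤ) :=
  {q | ∃ W : WeierstrassCurve ℤ, W.Δ ≠ 0 ∧ IsCoprime W.c₄ W.Δ ∧ HasTwoTorsionPoint W ∧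
    (conductor W : ℝ) ≤ X ∧ (height W : ℝ) ≤ X ^ κ ∧ P W ∧ q = (W.c₄, W.c₆)}

/-- the region whose area enters the constant -/
def region : Set (ℝ × ℝ) := {v | |v.2| * |v.1 ^ 2 - 64 * v.2| ≤ 1}

/-- the local factor of the constant at the prime `p` -/
noncomputable def localFactor (p : ℕ) : ℝ :=
  if p = 2 then (3 - (2 : ℝ) ^ (3 / 4 : ℝ)) / (8 * (2 - (2 : ℝ) ^ (3 / 4 : ℝ)))
  else (1 - 1 / (p : ℝ)) ^ 2 * (1 + 2 / (p - (p : ℝ) ^ (3 / 4 : ℝ)))

/-- the constant: twice the area of the region times the product of the local factors -/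
noncomputable def constant : ℝ :=
  2 * ((volume region).toReal * ∏' p : Nat.Primes, localFactor p)

/-- **Theorem.** The area of the region is finite, the product of the local factors converges, the
constant is positive, and for `3 / 2 < κ < 3` the number of semistable elliptic curves over `ℚ` with
a rational point of order two, conductor at most `X` and naive height at most `X ^ κ` is
`(constant + o(1)) X ^ (3 / 4)`. Moreover there is a nondecreasing function `G` on `(0, ∞)`, which
does not depend on `κ` and tends to `0` at `0` and to the constant at `∞`, such that for each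
`t > 0` the number of those with `|Δ| ≤ t N ^ (3 / 2)` is `(G t + o(1)) X ^ (3 / 4)`. -/
theorem result : volume region ≠ ⊤ ∧ Multipliable (fun p : Nat.Primes => localFactor p) ∧
    0 < constant ∧
    (∀ κ : ℝ, 3 / 2 < κ → κ < 3 → Tendsto (fun X : ℝ =>
      ((Curves κ X (fun _ => True)).ncard : ℝ) / X ^ (3 / 4 : ℝ)) atTop (𝓝 constant)) ∧
    ∃ G : ℝ → ℝ, MonotoneOn G (Set.Ioi 0) ∧ Tendsto G (𝓝[>] 0) (𝓝 0) ∧
      Tendsto G atTop (𝓝 constant) ∧
      ∀ κ : ℝ, 3 / 2 < κ → κ < 3 → ∀ t : ℝ, 0 < t → Tendsto (fun X : ℝ =>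
        ((Curves κ X (fun W => |(W.Δ : ℝ)| ≤ t * (conductor W : ℝ) ^ (3 / 2 : ℝ))).ncard : ℝ) /
          X ^ (3 / 4 : ℝ)) atTop (𝓝 (G t)) := by
  have hreg : region = Pool.Agent.T2h82.As.Lev 64 0 1 := by
    ext v
    show |v.2| * |v.1 ^ 2 - 64 * v.2| ≤ 1 ↔ |v.1| ^ 0 * (|v.2| * |v.1 ^ 2 - 64 * v.2|) ≤ 1
    rw [pow_zero, one_mul]
  have hloc : (fun p : Nat.Primes => localFactor p) =
      (fun p : Nat.Primes => Pool.Agent.T2h82.As.lc 4 0 (3 / 4) p) := by
    funext p
    rw [Pool.Agent.T2h82.As.lc_eq p.2]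
    rfl
  have hc : constant = Pool.Agent.T2h82.As.c0 := by
    unfold constant Pool.Agent.T2h82.As.c0
    rw [hloc, hreg]
  have hCl : ∀ (κ X : ℝ) (P : WeierstrassCurve ℤ → Prop),
      Curves κ X P = Pool.Agent.T2h82.Cl κ X P := fun _ _ _ => rfl
  have hcount := Pool.Agent.T2h82.As.count 2 (by norm_num) (by norm_num)
  refine ⟨by rw [hreg]; exact hcount.1, by rw [hloc]; exact hcount.2.1,
    by rw [hc]; exact Pool.Agent.T2h82.As.c0_pos, fun κ h1 h2 => ?_, ?_⟩
  · have h3 := Pool.Agent.T2h82.As.conv κ _ _ (Pool.Agent.T2h82.As.count κ h1 h2).2.2.2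
    rw [hc]
    refine h3.congr (fun X => ?_)
    rw [hCl]
    have h4 : Pool.Agent.T2h82.Cl κ X (Pool.Agent.T2h82.As.Pst 0 1) =
        Pool.Agent.T2h82.Cl κ X (fun _ => True) := by
      apply Set.Subset.antisymm
      · exact Pool.Agent.T2h82.As.cl_mono _ _ _ _ (fun _ _ => trivial)
      · refine Pool.Agent.T2h82.As.cl_mono _ _ _ _ (fun W _ => ?_)
        unfold Pool.Agent.T2h82.As.Pst
        rw [zero_mul, one_mul]
        positivity
    rw [h4]
  · obtain ⟨G, g1, g2, g3, g4⟩ := Pool.Agent.T2h82.As.law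
    -- the condition is stated with the squares in the helper files
    have hsq : Tendsto (fun t : ℝ => t ^ 2) (𝓝[>] 0) (𝓝[>] 0) := by
      refine tendsto_nhdsWithin_iff.2 ⟨?_, ?_⟩
      · have h1 : Tendsto (fun t : ℝ => t ^ 2) (𝓝 0) (𝓝 (0 ^ 2)) :=
          (continuous_pow 2).tendsto 0
        rw [zero_pow (by norm_num)] at h1
        exact h1.mono_left nhdsWithin_le_nhds
      · filter_upwards [self_mem_nhdsWithin] with t ht
        have ht' : 0 < t := ht
        exact pow_pos ht' 2
    refine ⟨fun t => G (t ^ 2), ?_, g2.comp hsq, ?_, ?_⟩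
    · intro t ht t' ht' h
      have p1 : 0 < t := ht
      have p2 : 0 < t' := ht'
      exact g1 (pow_pos p1 2) (pow_pos p2 2) (pow_le_pow_left₀ p1.le h 2)
    · rw [hc]
      exact g3.comp (tendsto_pow_atTop (by norm_num))
    · intro κ h1 h2 t ht
      have h3 := Pool.Agent.T2h82.As.conv κ _ _ (g4 κ h1 h2 (t ^ 2) (by positivity))
      refine h3.congr (fun X => ?_)
      have h4 : Pool.Agent.T2h82.Cl κ X (Pool.Agent.T2h82.As.Pst 1 (t ^ 2)) =
          Curves κ X (fun W => |(W.Δ : ℝ)| ≤ t * (conductor W : ℝ) ^ (3 / 2 : ℝ)) := by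
        have key : ∀ W : WeierstrassCurve ℤ, Pool.Agent.T2h82.As.Pst 1 (t ^ 2) W ↔
            |(W.Δ : ℝ)| ≤ t * (conductor W : ℝ) ^ (3 / 2 : ℝ) := by
          intro W
          have hN : (0 : ℝ) ≤ (conductor W : ℝ) := by positivity
          have e1 : (t * (conductor W : ℝ) ^ (3 / 2 : ℝ)) ^ 2 =
              t ^ 2 * (conductor W : ℝ) ^ 3 := by
            rw [mul_pow, ← Real.rpow_natCast ((conductor W : ℝ) ^ (3 / 2 : ℝ)),
              ← Real.rpow_mul hN, ← Real.rpow_natCast (conductor W : ℝ) 3]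
            norm_num
          unfold Pool.Agent.T2h82.As.Pst
          rw [one_mul]
          have e2 : (Pool.Agent.T2h82.cond W : ℝ) = (conductor W : ℝ) := rfl
          rw [e2, ← e1, sq_le_sq, abs_of_nonneg (by positivity :
            0 ≤ t * (conductor W : ℝ) ^ (3 / 2 : ℝ))]
        apply Set.Subset.antisymm
        · rintro q ⟨W, a, b, c, d, e, f, g⟩
          exact ⟨W, a, b, c, d, e, (key W).1 f, g⟩
        · rintro q ⟨W, a, b, c, d, e, f, g⟩
          exact ⟨W, a, b, c, d, e, (key W).2 f, g⟩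
      rw [h4]

end Pool.Agent.Results.MP_d8bd92_nt.TwoTorsionConductorLaw
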