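import Mathlib
import Pool.Agent.T2h82.Count

/-!
# The Szpiro quotient of almost all semistable curves with a rational point of order two

Ordered by conductor, and with naive height at most `X ^ κ` for some `κ < 3`, almost all semistable
elliptic curves over `ℚ` with a rational point of order two have `|Δ| = N ^ (3 / 2 + o(1))`, with a
power saving in the exceptional set.
-/

set_option autoImplicit false

namespace Pool.Agent.Results.MP_d8bd92_nt.TwoTorsionConductorQuotient

/-- the product of the distinct primes dividing `Δ(W)` (the conductor if `gcd(c₄, Δ) = 1`) -/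
def conductor (W : WeierstrassCurve ℤ) : ℕ := ∏ p ∈ W.Δ.natAbs.primeFactors, p

/-- there is a rational point of order two: the 2-division polynomial `4x³ + b₂x² + 2b₄x + b₆` has
a rational root -/
def HasTwoTorsionPoint (W : WeierstrassCurve ℤ) : Prop :=
  ∃ r : ℚ, 4 * r ^ 3 + W.b₂ * r ^ 2 + 2 * W.b₄ * r + W.b₆ = 0

/-- the naive height `max (|c₄|³, c₆²)` -/
def height (W : WeierstrassCurve ℤ) : ℤ := max (|W.c₄| ^ 3) (W.c₆ ^ 2)

/-- the invariants `(c₄, c₆)` of the integral Weierstrass curves with `Δ ≠ 0` and `gcd(c₄, Δ) = 1`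
(the minimal models of the semistable elliptic curves over `ℚ`) having a rational point of order
two, conductor at most `X`, naive height at most `X ^ κ` and the property `P` -/
def Curves (κ X : ℝ) (P : WeierstrassCurve ℤ → Prop) : Set (ℤ × ℤ) :=
  {q | ∃ W : WeierstrassCurve ℤ, W.Δ ≠ 0 ∧ IsCoprime W.c₄ W.Δ ∧ HasTwoTorsionPoint W ∧
    (conductor W : ℝ) ≤ X ∧ (height W : ℝ) ≤ X ^ κ ∧ P W ∧ q = (W.c₄, W.c₆)}

/-- `|Δ| < N ^ (3 / 2 - δ)`, or the height is larger than `N ^ (3 / 2 + δ)` -/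
def Exceptional (δ : ℝ) (W : WeierstrassCurve ℤ) : Prop :=
  |(W.Δ : ℝ)| < (conductor W : ℝ) ^ (3 / 2 - δ) ∨ (conductor W : ℝ) ^ (3 / 2 + δ) < (height W : ℝ)

/-- **Theorem.** Let `3 / 2 < κ < 3` and `δ > 0`. There are `η > 0` and `C` such that, for all large
`X`, among the semistable elliptic curves over `ℚ` with a rational point of order two, conductor
`N ≤ X` and naive height at most `X ^ κ`, the proportion of those with `|Δ| < N ^ (3 / 2 - δ)` or
height larger than `N ^ (3 / 2 + δ)` is at most `C X ^ (-η)`. -/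
theorem result (κ δ : ℝ) (h1 : 3 / 2 < κ) (h2 : κ < 3) (hδ : 0 < δ) : ∃ η C X₀ : ℝ, 0 < η ∧
    0 < C ∧ ∀ X : ℝ, X₀ ≤ X → (Curves κ X (fun _ => True)).Finite ∧
    0 < (Curves κ X (fun _ => True)).ncard ∧
    ((Curves κ X (Exceptional δ)).ncard : ℝ) ≤
      C * X ^ (-η) * ((Curves κ X (fun _ => True)).ncard : ℝ) := by
  obtain ⟨η, C, X₀, hη, hC, h⟩ := Pool.Agent.T2h82.proportion κ δ h1 h2 hδ
  obtain ⟨C', hC', hu⟩ := Pool.Agent.T2h82.upper κ h2
  obtain ⟨X₁, hl⟩ := Pool.Agent.T2h82.lower κ h1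
  refine ⟨η, C, max (max X₀ X₁) 1, hη, hC, fun X hX => ?_⟩
  have hXa : X₀ ≤ X := (le_max_left _ _).trans ((le_max_left _ _).trans hX)
  have hXb : X₁ ≤ X := (le_max_right _ _).trans ((le_max_left _ _).trans hX)
  have hXc : 1 ≤ X := (le_max_right _ _).trans hX
  have hX0 : 0 < X := by linarith
  have hpos : (0 : ℝ) < 1 / 2000 * X ^ (3 / 4 : ℝ) := by positivity
  have hlX := hl X hXb
  refine ⟨(hu X hXc).1, ?_, h X hXa⟩
  exact_mod_cast hpos.trans_le hlX

end Pool.Agent.Results.MP_d8bd92_nt.TwoTorsionConductorQuotient
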